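import Mathlib

namespace Pool.Agent.Results.MP_f02e69_co.SizeFunctionFalse

open Set Submodule

/-- `N` and `P` are isomorphic matroids (possibly on different ground types). -/
def MIso {α β : Type} (N : Matroid α) (P : Matroid β) : Prop :=
  ∃ f : α → β, BijOn f N.E P.E ∧ ∀ I ⊆ N.E, (N.Indep I ↔ P.Indep (f '' I))

/-- `M` has a minor isomorphic to `P`.  Here `N ≤m M` is Mathlib's minor relation:
`N = M ／ C ＼ D` for some sets `C`, `D`. -/
def HasMinorIso {α β : Type} (M : Matroid α) (P : Matroid β) : Prop :=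
  ∃ N : Matroid α, N ≤m M ∧ MIso N P

/-- `N` is a copy of the `k`-point line `U_{2,k}`: the ground set has exactly `k` elements and
the independent sets are exactly the sets of at most two elements. -/
def IsLine {α : Type} (k : ℕ) (N : Matroid α) : Prop :=
  N.E.encard = k ∧ ∀ I ⊆ N.E, (N.Indep I ↔ I.encard ≤ 2)

/-- The class `𝓤(q)`: the finite matroids with no minor isomorphic to `U_{2,q+2}`. -/
def InU {α : Type} (q : ℕ) (M : Matroid α) : Prop :=
  M.Finite ∧ ∀ N : Matroid α, N ≤m M → ¬ IsLine (q + 2) N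

/-- The class `𝓛(r)`: `M` is representable over a field with `r` elements. -/
def InL {α : Type} (r : ℕ) (M : Matroid α) : Prop :=
  ∃ (F : Type) (_ : Field F) (W : Type) (_ : AddCommGroup W) (_ : Module F W) (v : α → W),
    Nat.card F = r ∧ ∀ I ⊆ M.E, (M.Indep I ↔ LinearIndepOn F v I)

/-- `|M|`: the number of points (rank-one flats) of `M`. -/
noncomputable def points {α : Type} (M : Matroid α) : ℕ :=
  {P : Set α | M.IsFlat P ∧ M.eRk P = 1}.ncard

/-- Membership in the class `𝓔𝓧(M_α) ∩ 𝓤(q)`. -/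
def InClass {ι : Type} {A : ι → Type} (𝓜 : ∀ i, Matroid (A i)) (q : ℕ)
    {β : Type} (G : Matroid β) : Prop :=
  InU q G ∧ ∀ i, ¬ HasMinorIso G (𝓜 i)

/-- `h(𝓔𝓧(M_α) ∩ 𝓤(q); n) = k`: `k` is the maximum number of points of a rank-`n` matroid
in the class `𝓔𝓧(M_α) ∩ 𝓤(q)`. -/
def IsSize {ι : Type} {A : ι → Type} (𝓜 : ∀ i, Matroid (A i)) (q n k : ℕ) : Prop :=
  IsGreatest {k | ∃ (β : Type) (G : Matroid β), InClass 𝓜 q G ∧ G.eRank = n ∧ points G = k} k

/-- The assertion of Q1. -/
def Q1 : Prop :=
  ∀ q : ℕ, 2 ≤ q → ∀ (ι : Type) (A : ι → Type) (𝓜 : ∀ i, Matroid (A i)),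
    (∀ i, InU q (𝓜 i)) →
    ∀ r : ℕ, (IsPrimePow r ∧ r ≤ q ∧ ∀ i, ¬ InL r (𝓜 i)) →
      (∀ r' : ℕ, (IsPrimePow r' ∧ r' ≤ q ∧ ∀ i, ¬ InL r' (𝓜 i)) → r' ≤ r) →
      ∃ N : ℕ, ∀ n ≥ N, IsSize 𝓜 q n ((r ^ n - 1) / (r - 1))

/-! ### Linear matroids -/

section lin

variable {F : Type} [Field F] {W : Type} [AddCommGroup W] [Module F W] {β : Type}

lemma ncard_le_of_span_le [Finite β] (v : β → W) {I J : Set β} (hJ : LinearIndepOn F v J)
    (h : ∀ e ∈ J, v e ∈ span F (v '' I)) : J.ncard ≤ I.ncard := by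
  classical
  let _ : Fintype β := Fintype.ofFinite β
  have h1 : Module.finrank F (span F (v '' J)) = J.ncard := by
    have := finrank_span_eq_card (R := F) (b := fun x : J => v x) hJ
    rw [← Set.image_eq_range] at this
    rw [this, ← Nat.card_eq_fintype_card]; rfl
  have h2 : span F (v '' J) ≤ span F (v '' I) := by
    rw [span_le]
    rintro _ ⟨e, he, rfl⟩
    exact h e he
  have : Module.Finite F (span F (v '' I)) :=
    FiniteDimensional.span_of_finite F ((Set.toFinite I).image v)
  have h3 : Module.finrank F (span F (v '' I)) ≤ I.ncard := by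
    have h4 := finrank_span_le_card (R := F) (v '' I)
    refine h4.trans ?_
    rw [← Set.ncard_eq_toFinset_card']
    exact Set.ncard_image_le (Set.toFinite I)
  calc J.ncard = _ := h1.symm
    _ ≤ _ := Submodule.finrank_mono h2
    _ ≤ _ := h3

/-- The matroid of a vector configuration indexed by a finite type. -/
noncomputable def linMat (F : Type) [Field F] {W : Type} [AddCommGroup W] [Module F W]
    {β : Type} [Finite β] (v : β → W) : Matroid β :=
  (IndepMatroid.ofFinite (E := univ) (Set.toFinite _) (fun I => LinearIndepOn F v I)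
    (by simp)
    (fun I J hJ hIJ => hJ.mono hIJ)
    (by
      intro I J hI hJ hlt
      by_contra hcon
      push Not at hcon
      refine absurd (ncard_le_of_span_le (F := F) v (I := I) hJ ?_) (by omega)
      intro e he
      by_cases heI : e ∈ I
      · exact subset_span ⟨e, heI, rfl⟩
      · by_contra hn
        exact hcon e he heI (hI.insert hn))
    (fun I _ => subset_univ I)).matroid

@[simp] lemma linMat_E [Finite β] (v : β → W) : (linMat F v).E = univ := rfl

@[simp] lemma linMat_indep [Finite β] (v : β → W) (I : Set β) :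
    (linMat F v).Indep I ↔ LinearIndepOn F v I := Iff.rfl

lemma linMat_finite [Finite β] (v : β → W) : (linMat F v).Finite := ⟨Set.toFinite _⟩

/-- `v` represents `M` over `F`. -/
def IsRep (F : Type) [Field F] {W : Type} [AddCommGroup W] [Module F W] {β : Type}
    (v : β → W) (M : Matroid β) : Prop := ∀ I ⊆ M.E, (M.Indep I ↔ LinearIndepOn F v I)

lemma isRep_linMat [Finite β] (v : β → W) : IsRep F v (linMat F v) := fun _ _ => Iff.rfl

lemma IsRep.minor {v : β → W} {M : Matroid β} (h : IsRep F v M) {C D J : Set β}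
    (hJ : M.IsBasis' J C) :
    IsRep F ((span F (v '' J)).mkQ ∘ v) ((M.contract C).delete D) := by
  intro I hI
  have hI1 : I ⊆ M.E := fun x hx => (hI hx).1.1
  have hI2 : Disjoint C I := by
    rw [Set.disjoint_left]; intro x hx hx'; exact (hI hx').1.2 hx
  have hI3 : Disjoint I D := by
    rw [Set.disjoint_left]; intro x hx hx'; exact (hI hx).2 hx'
  rw [Matroid.delete_indep_iff, hJ.contract_indep_iff]
  have hJI : J ⊆ C := hJ.subset
  have hJE : J ⊆ M.E := hJ.indep.subset_ground
  have hJl : LinearIndepOn F v J := (h J hJE).1 hJ.indep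
  have hd : Disjoint J I := hI2.mono_left hJI
  rw [hJl.quotient_iff_union hd, Set.union_comm I J, h _ (union_subset hJE hI1)]
  simp [hI2, hI3]

/-- Line lemma: pairwise independent vectors on a line over a field with `s` elements:
there are at most `s + 1` of them. -/
lemma line_bound [Finite F] (v : β → W) {X : Set β} (hX : X.Finite)
    (hp : ∀ x ∈ X, ∀ y ∈ X, x ≠ y → LinearIndepOn F v {x, y})
    (ht : ∀ x ∈ X, ∀ y ∈ X, ∀ z ∈ X, x ≠ y → z ≠ x → z ≠ y → ¬ LinearIndepOn F v {z, x, y}) :
    X.ncard ≤ Nat.card F + 1 := by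
  classical
  by_contra hcon
  push Not at hcon
  have hF : 0 < Nat.card F := Nat.card_pos
  obtain ⟨a, ha, b, hb, hab⟩ := (Set.one_lt_ncard hX).1 (by omega : 1 < X.ncard)
  have key : ∀ c ∈ X \ {a, b}, ∃ l m : F, l ≠ 0 ∧ m ≠ 0 ∧ v c = l • v a + m • v b := by
    rintro c ⟨hc, hc2⟩
    simp only [mem_insert_iff, mem_singleton_iff, not_or] at hc2
    have h1 := ht a ha b hb c hc hab hc2.1 hc2.2
    have h2 := hp a ha b hb hab
    rw [linearIndepOn_insert_iff] at h1
    push Not at h1
    have h3 := (h1 h2).1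
    rw [Set.image_pair, mem_span_pair] at h3
    obtain ⟨l, m, hlm⟩ := h3
    refine ⟨l, m, ?_, ?_, hlm.symm⟩
    · rintro rfl
      have h4 := hp c hc b hb hc2.2
      rw [LinearIndepOn.pair_iff _ hc2.2] at h4
      have := h4 1 (-m) (by rw [← hlm]; simp)
      exact one_ne_zero this.1
    · rintro rfl
      have h4 := hp c hc a ha hc2.1
      rw [LinearIndepOn.pair_iff _ hc2.1] at h4
      have := h4 1 (-l) (by rw [← hlm]; simp)
      exact one_ne_zero this.1
  choose! l m hl hm hv using key
  have hmaps : ∀ c ∈ X \ {a, b}, (fun c => l c / m c) c ∈ ({0}ᶜ : Set F) := by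
    intro c hc
    simp [hl c hc, hm c hc]
  have hinj : InjOn (fun c => l c / m c) (X \ {a, b}) := by
    intro c hc d hd hcd
    by_contra hne
    have h4 := hp c hc.1 d hd.1 hne
    rw [LinearIndepOn.pair_iff _ hne] at h4
    have h5 : l c * m d = l d * m c := by
      have := hcd
      simp only at this
      rw [div_eq_div_iff (hm c hc) (hm d hd)] at this
      exact this
    have := h4 (m d) (-(m c)) (by
      rw [hv c hc, hv d hd]
      have h6 : m d • (l c • v a + m c • v b) + (-(m c)) • (l d • v a + m d • v b)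
          = (l c * m d - l d * m c) • v a := by module
      rw [h6, h5, sub_self, zero_smul])
    exact hm d hd this.1
  have h6 := Set.ncard_le_ncard_of_injOn _ hmaps hinj (Set.toFinite _)
  have h7 : (X \ {a, b}).ncard + 2 = X.ncard := by
    have := Set.ncard_sdiff_add_ncard_of_subset (s := {a, b}) (t := X)
      (by rintro x (rfl | rfl) <;> assumption) hX
    rw [Set.ncard_pair hab] at this
    exact this
  have h8 : ({0}ᶜ : Set F).ncard + 1 = Nat.card F := by
    have := Set.ncard_add_ncard_compl ({0} : Set F)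
    rw [Set.ncard_singleton] at this
    omega
  omega

/-- A matroid represented over `F` has no `U_{2,k}` with `k ≥ |F| + 2`. -/
lemma IsRep.not_isLine [Finite F] {v : β → W} {M : Matroid β} (h : IsRep F v M) {k : ℕ}
    (hk : Nat.card F + 2 ≤ k) : ¬ IsLine k M := by
  rintro ⟨h1, h2⟩
  have hfin : M.E.Finite := by
    apply Set.finite_of_encard_eq_coe h1
  have hn : M.E.ncard = k := by
    rw [Set.ncard_def, h1]; rfl
  have := line_bound (F := F) v hfin ?_ ?_
  · omega
  · intro x hx y hy hxy
    rw [← h _ (by rintro z (rfl | rfl) <;> assumption), h2 _ (by rintro z (rfl | rfl) <;> assumption)]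
    rw [Set.encard_pair hxy]
  · intro x hx y hy z hz hxy hzx hzy
    rw [← h _ (by rintro w (rfl | rfl | rfl) <;> assumption),
      h2 _ (by rintro w (rfl | rfl | rfl) <;> assumption)]
    rw [Set.encard_insert_of_notMem (by simp [hzx, hzy]), Set.encard_pair hxy]
    norm_num

/-- Matroids represented over `F` with `|F| ≤ q` are in `𝓤(q)`. -/
lemma IsRep.inU [Finite F] {v : β → W} {M : Matroid β} (h : IsRep F v M) (hM : M.Finite) {q : ℕ}
    (hk : Nat.card F ≤ q) : InU q M := by
  refine ⟨hM, ?_⟩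
  rintro N ⟨C, D, rfl⟩
  obtain ⟨J, hJ⟩ := M.exists_isBasis' C
  exact (h.minor hJ).not_isLine (by omega)

end lin

/-! ### Density over a subfield -/

section dens

variable {k : Type} [Field k] {F : Type} [Field F] [Algebra k F] {W : Type} [AddCommGroup W]
  [Module F W] [Module k W] [IsScalarTower k F W] {β : Type}

lemma LinearIndepOn.restr {v : β → W} {S : Set β} (h : LinearIndepOn F v S) :
    LinearIndepOn k v S :=
  LinearIndependent.restrict_scalars' k h

/-- Vectors that are `k`-independent modulo an `F`-subspace `P` are `k`-independent modulo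
any `k`-subspace contained in `P`. -/
lemma LinearIndepOn.refine {v : β → W} {S : Set β} {P : Submodule F W} {Q : Submodule k W}
    (hQ : ∀ x ∈ Q, x ∈ P) (h : LinearIndepOn k (P.mkQ ∘ v) S) :
    LinearIndepOn k (Q.mkQ ∘ v) S := by
  have hle : Q ≤ LinearMap.ker (P.mkQ.restrictScalars k) := by
    intro x hx
    simpa using hQ x hx
  refine LinearIndepOn.of_comp (Q.liftQ (P.mkQ.restrictScalars k) hle) ?_
  have : (Q.liftQ (P.mkQ.restrictScalars k) hle) ∘ (Q.mkQ ∘ v) = P.mkQ ∘ v := by
    ext x
    simp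
  rw [this]
  exact h

lemma density [Finite β] {v : β → W} {d n r : ℕ}
    (hd : ∀ S : Set β, LinearIndepOn k v S → S.ncard ≤ d)
    (hn : (linMat F v).eRank = n) {C D J : Set β} (hJ : (linMat F v).IsBasis' J C)
    (hr : ∀ I, (((linMat F v).contract C).delete D).Indep I → I.ncard ≤ r) {T : Set β}
    (hTE : T ⊆ (((linMat F v).contract C).delete D).E)
    (hT : LinearIndepOn k ((span F (v '' J)).mkQ ∘ v) T) : T.ncard + n ≤ d + r := by
  classical
  obtain ⟨I, hI⟩ := (((linMat F v).contract C).delete D).exists_isBase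
  have hIN := hI.indep
  have hIr := hr I hIN
  have hXmem : ∀ x ∈ (((linMat F v).contract C).delete D).E, x ∉ C ∧ x ∉ D := by
    intro x hx
    exact ⟨hx.1.2, hx.2⟩
  have hIJ : (linMat F v).Indep (I ∪ J) := by
    rw [Matroid.delete_indep_iff, hJ.contract_indep_iff] at hIN
    exact hIN.1.1
  obtain ⟨B, hB, hIJB⟩ := hIJ.exists_isBase_superset
  have hJC := hJ.subset
  -- claim 1
  have h1 : ∀ x ∈ (((linMat F v).contract C).delete D).E ∪ J, v x ∈ span F (v '' (I ∪ J)) := by
    rintro x (hx | hx)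
    · by_contra hcon
      have h2 : LinearIndepOn F v (insert x (I ∪ J)) := LinearIndepOn.insert hIJ hcon
      have h3 : (((linMat F v).contract C).delete D).Indep (insert x I) := by
        rw [Matroid.delete_indep_iff, hJ.contract_indep_iff]
        refine ⟨⟨?_, ?_⟩, ?_⟩
        · rw [Set.insert_union]; exact h2
        · rw [Set.disjoint_left]
          rintro y hy (rfl | hy')
          · exact (hXmem _ hx).1 hy
          · exact (hXmem _ (hIN.subset_ground hy')).1 hy
        · rw [Set.disjoint_left]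
          rintro y (rfl | hy') hy
          · exact (hXmem _ hx).2 hy
          · exact (hXmem _ (hIN.subset_ground hy')).2 hy
      have h4 := hI.eq_of_subset_indep h3 (Set.subset_insert _ _)
      exact hcon (subset_span ⟨x, Or.inl (h4 ▸ Set.mem_insert _ _), rfl⟩)
    · exact subset_span ⟨x, Or.inr hx, rfl⟩
  -- claim 2
  have hJk : LinearIndepOn k v J := LinearIndepOn.restr (F := F) hJ.indep
  have h2 : LinearIndepOn k v (J ∪ T) := by
    refine hJk.union_of_quotient (LinearIndepOn.refine (F := F) ?_ hT)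
    intro x hx
    exact span_le_restrictScalars k F (v '' J) hx
  -- claim 3
  set L : Set β := B \ (I ∪ J) with hL
  have hLd : Disjoint (I ∪ J) L := disjoint_sdiff_right
  have hB' : LinearIndepOn F v ((I ∪ J) ∪ L) := by
    have : (I ∪ J) ∪ L = B := Set.union_sdiff_cancel hIJB
    rw [this]; exact hB.indep
  have h3 : LinearIndepOn k ((span k (v '' (J ∪ T))).mkQ ∘ v) L := by
    have h4 := ((linearIndepOn_union_iff_quotient hLd).1 hB').2
    refine LinearIndepOn.refine (F := F) ?_ (LinearIndepOn.restr (F := F) h4)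
    intro x hx
    have h5 : span k (v '' (J ∪ T)) ≤ (span F (v '' (I ∪ J))).restrictScalars k := by
      rw [span_le]
      rintro _ ⟨y, hy, rfl⟩
      refine h1 y ?_
      rcases hy with hy | hy
      · exact Or.inr hy
      · exact Or.inl (hTE hy)
    exact h5 hx
  have h4 := h2.union_of_quotient h3
  have hd1 : Disjoint J T := by
    rw [Set.disjoint_left]
    intro x hx hx'
    exact (hXmem x (hTE hx')).1 (hJC hx)
  have hd2 : Disjoint (J ∪ T) L := by
    rw [Set.disjoint_left]
    intro x hx hx'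
    apply h3.ne_zero hx'
    simp only [Function.comp_apply, mkQ_apply, Submodule.Quotient.mk_eq_zero]
    exact subset_span ⟨x, hx, rfl⟩
  have h5 := hd _ h4
  rw [Set.ncard_union_eq hd2 (Set.toFinite _) (Set.toFinite _),
    Set.ncard_union_eq hd1 (Set.toFinite _) (Set.toFinite _)] at h5
  have h6 : B.ncard = n := by
    have := hB.encard_eq_eRank
    rw [hn] at this
    rw [Set.ncard_def, this]; rfl
  have h7 : B.ncard ≤ I.ncard + J.ncard + L.ncard := by
    have : (I ∪ J) ∪ L = B := Set.union_sdiff_cancel hIJB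
    rw [← this]
    exact (Set.ncard_union_le _ _).trans (by gcongr; exact Set.ncard_union_le _ _)
  omega

/-- Counting nonzero vectors of `k`-dimension at most `t`. -/
lemma card_bound {W : Type} [AddCommGroup W] [Module k W] [Finite k] [Finite β] {v : β → W}
    {X : Set β} {t : ℕ} (hinj : InjOn v X) (hne : ∀ x ∈ X, v x ≠ 0)
    (hT : ∀ T ⊆ X, LinearIndepOn k v T → T.ncard ≤ t) : X.ncard + 1 ≤ Nat.card k ^ t := by
  classical
  obtain ⟨T, hTX, -, hspan, hTi⟩ := exists_linearIndepOn_extension (K := k) (v := v)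
    (s := ∅) (t := X) (by simp) (Set.empty_subset _)
  have hTc := hT T hTX hTi
  have hfd : Module.Finite k (span k (v '' T)) :=
    FiniteDimensional.span_of_finite k ((Set.toFinite T).image v)
  have hfin : Finite (span k (v '' T)) := Module.finite_of_finite k
  let _ : Fintype (span k (v '' T)) := Fintype.ofFinite _
  let _ : Fintype k := Fintype.ofFinite _
  let _ : Fintype β := Fintype.ofFinite β
  have h1 : Nat.card (span k (v '' T)) = Nat.card k ^ Module.finrank k (span k (v '' T)) := by
    rw [Nat.card_eq_fintype_card, Nat.card_eq_fintype_card, Module.card_eq_pow_finrank (K := k)]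
  have h2 : Module.finrank k (span k (v '' T)) ≤ t := by
    have h4 := finrank_span_le_card (R := k) (v '' T)
    refine (h4.trans ?_).trans hTc
    rw [← Set.ncard_eq_toFinset_card']
    exact Set.ncard_image_le (Set.toFinite T)
  have h3 : (insert 0 (v '' X)).ncard = X.ncard + 1 := by
    rw [Set.ncard_insert_of_notMem, hinj.ncard_image]
    rintro ⟨x, hx, hx0⟩
    exact hne x hx hx0
  have h4 : (insert 0 (v '' X)).ncard ≤ Nat.card (span k (v '' T)) := by
    have : Nat.card (span k (v '' T)) = ((span k (v '' T) : Submodule k W) : Set W).ncard := rfl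
    rw [this]
    refine Set.ncard_le_ncard ?_ (Set.toFinite _)
    rintro x (rfl | hx)
    · exact zero_mem _
    · exact hspan hx
  calc X.ncard + 1 = _ := h3.symm
    _ ≤ _ := h4
    _ = _ := h1
    _ ≤ _ := Nat.pow_le_pow_right Nat.card_pos h2

end dens

/-! ### Projective geometries -/

section pg

open scoped LinearAlgebra.Projectivization

variable (F : Type) [Field F] [Finite F]

/-- `PG(3, F)`. -/
noncomputable def PG3 : Matroid (ℙ F (Fin 4 → F)) := linMat F (fun p => p.rep)

lemma PG3_inL : InL (Nat.card F) (PG3 F) :=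
  ⟨F, inferInstance, Fin 4 → F, inferInstance, inferInstance, fun p => p.rep, rfl,
    fun _ _ => Iff.rfl⟩

lemma PG3_card : (univ : Set (ℙ F (Fin 4 → F))).ncard
    = 1 + Nat.card F + Nat.card F ^ 2 + Nat.card F ^ 3 := by
  rw [Set.ncard_univ, Projectivization.card_of_finrank F (Fin 4 → F) (n := 4) (by simp)]
  simp [Finset.sum_range_succ]

omit [Finite F] in
lemma PG3_single (p : ℙ F (Fin 4 → F)) : LinearIndepOn F (fun p : ℙ F (Fin 4 → F) => p.rep) {p} :=
  LinearIndepOn.singleton p.rep_nonzero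

omit [Finite F] in
lemma PG3_pair (p p' : ℙ F (Fin 4 → F)) (h : p ≠ p') :
    LinearIndepOn F (fun p : ℙ F (Fin 4 → F) => p.rep) {p, p'} := by
  rw [LinearIndepOn.pair_iff _ h]
  have h1 := (Projectivization.independent_pair_iff_ne p p').2 h
  rw [Projectivization.independent_iff] at h1
  have h2 : (Projectivization.rep ∘ ![p, p']) = ![p.rep, p'.rep] := by
    ext i; fin_cases i <;> rfl
  rw [h2, LinearIndependent.pair_iff] at h1
  exact h1

lemma PG3_rank (I : Set (ℙ F (Fin 4 → F))) (hI : (PG3 F).Indep I) : I.ncard ≤ 4 := by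
  classical
  have hI' : LinearIndepOn F (fun p : ℙ F (Fin 4 → F) => p.rep) I := hI
  let _ : Fintype I := Fintype.ofFinite _
  have := LinearIndependent.fintype_card_le_finrank hI'
  rw [← Nat.card_eq_fintype_card] at this
  simpa using this

lemma PG3_inU {q : ℕ} (hq : Nat.card F ≤ q) : InU q (PG3 F) :=
  (isRep_linMat _).inU (linMat_finite _) hq

omit [Finite F] in
lemma mk_rep_mem {u : Fin 4 → F} (hu : u ≠ 0) (V : Submodule F (Fin 4 → F)) :
    (Projectivization.mk F u hu).rep ∈ V ↔ u ∈ V := by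
  obtain ⟨a, ha⟩ := Projectivization.exists_smul_eq_mk_rep F u hu
  rw [← ha]
  exact Submodule.smul_mem_iff' V a

omit [Finite F] in
lemma mk_ne_mk {a b a' b' : F} (h1 : (![a, b, 0, 0] : Fin 4 → F) ≠ 0)
    (h2 : (![a', b', 0, 0] : Fin 4 → F) ≠ 0) (h : a * b' ≠ a' * b) :
    Projectivization.mk F (![a, b, 0, 0] : Fin 4 → F) h1 ≠
      Projectivization.mk F (![a', b', 0, 0] : Fin 4 → F) h2 := by
  intro heq
  rw [Projectivization.mk_eq_mk_iff'] at heq
  obtain ⟨c, hc⟩ := heq
  have e0 := congrFun hc 0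
  have e1 := congrFun hc 1
  simp at e0 e1
  apply h
  rw [← e0, ← e1]
  ring

/-- `PG(3, F)` is not binary once `|F| ≥ 3`. -/
lemma PG3_not_binary (h3 : 3 ≤ Nat.card F) : ¬ InL 2 (PG3 F) := by
  classical
  rintro ⟨F', _, W', _, _, v', hcard, hrep⟩
  have : Finite F' := Nat.finite_of_card_ne_zero (by omega)
  obtain ⟨t, ht0, ht1⟩ : ∃ t : F, t ≠ 0 ∧ t ≠ 1 := by
    by_contra hcon
    push Not at hcon
    have h4 : (univ : Set F) ⊆ {0, 1} := by
      intro x _
      by_cases hx : x = 0
      · exact Or.inl hx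
      · exact Or.inr (hcon x hx)
    have h5 := Set.ncard_le_ncard h4 (Set.toFinite _)
    have h6 := Set.ncard_le_ncard (s := (univ : Set F)) h4 (Set.toFinite _)
    have h7 : ({0, 1} : Set F).ncard ≤ 2 := (Set.ncard_insert_le _ _).trans (by simp)
    rw [Set.ncard_univ] at h5
    omega
  have n0 : (![1, 0, 0, 0] : Fin 4 → F) ≠ 0 := fun h => one_ne_zero (congrFun h 0)
  have n1 : (![0, 1, 0, 0] : Fin 4 → F) ≠ 0 := fun h => one_ne_zero (congrFun h 1)
  have n2 : (![1, 1, 0, 0] : Fin 4 → F) ≠ 0 := fun h => one_ne_zero (congrFun h 0)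
  have n3 : (![1, t, 0, 0] : Fin 4 → F) ≠ 0 := fun h => one_ne_zero (congrFun h 0)
  set p0 := Projectivization.mk F (![1, 0, 0, 0] : Fin 4 → F) n0 with hp0
  set p1 := Projectivization.mk F (![0, 1, 0, 0] : Fin 4 → F) n1 with hp1
  set p2 := Projectivization.mk F (![1, 1, 0, 0] : Fin 4 → F) n2 with hp2
  set p3 := Projectivization.mk F (![1, t, 0, 0] : Fin 4 → F) n3 with hp3
  have d01 : p0 ≠ p1 := mk_ne_mk F n0 n1 (by simp)
  have d02 : p0 ≠ p2 := mk_ne_mk F n0 n2 (by simp)
  have d03 : p0 ≠ p3 := mk_ne_mk F n0 n3 (by simpa using ht0)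
  have d12 : p1 ≠ p2 := mk_ne_mk F n1 n2 (by simp)
  have d13 : p1 ≠ p3 := mk_ne_mk F n1 n3 (by simp)
  have d23 : p2 ≠ p3 := mk_ne_mk F n2 n3 (by simpa using ht1)
  set X : Set (ℙ F (Fin 4 → F)) := {p0, p1, p2, p3} with hX
  have hXc : X.ncard = 4 := by
    rw [hX, Set.ncard_insert_of_notMem (by simp [d01, d02, d03]),
      Set.ncard_insert_of_notMem (by simp [d12, d13]), Set.ncard_pair d23]
  set S : Submodule F (Fin 4 → F) :=
    span F ((fun p : ℙ F (Fin 4 → F) => p.rep) '' {p0, p1}) with hS
  have m0 : (![1, 0, 0, 0] : Fin 4 → F) ∈ S := by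
    rw [← mk_rep_mem F n0]
    exact subset_span ⟨p0, by simp, rfl⟩
  have m1 : (![0, 1, 0, 0] : Fin 4 → F) ∈ S := by
    rw [← mk_rep_mem F n1]
    exact subset_span ⟨p1, by simp, rfl⟩
  have m2 : (![1, 1, 0, 0] : Fin 4 → F) ∈ S := by
    have := S.add_mem m0 m1
    simpa using this
  have m3 : (![1, t, 0, 0] : Fin 4 → F) ∈ S := by
    have := S.add_mem m0 (S.smul_mem t m1)
    simpa using this
  have hmem : ∀ e ∈ X, e.rep ∈ S := by
    rintro e (rfl | rfl | rfl | rfl)
    · exact (mk_rep_mem F n0 S).2 m0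
    · exact (mk_rep_mem F n1 S).2 m1
    · exact (mk_rep_mem F n2 S).2 m2
    · exact (mk_rep_mem F n3 S).2 m3
  have := line_bound (F := F') v' (X := X) (Set.toFinite _) ?_ ?_
  · omega
  · intro x hx y hy hxy
    rw [← hrep _ (Set.subset_univ _)]
    exact PG3_pair F x y hxy
  · intro x hx y hy z hz hxy hzx hzy
    rw [← hrep _ (Set.subset_univ _)]
    intro hcon
    have hcon' : LinearIndepOn F (fun p : ℙ F (Fin 4 → F) => p.rep) {z, x, y} := hcon
    have h1 := ncard_le_of_span_le (F := F) (fun p : ℙ F (Fin 4 → F) => p.rep)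
      (I := {p0, p1}) hcon' (by
        rintro e (rfl | rfl | rfl)
        · exact hmem _ hz
        · exact hmem _ hx
        · exact hmem _ hy)
    rw [Set.ncard_insert_of_notMem (by simp [hzx, hzy]), Set.ncard_pair hxy,
      Set.ncard_pair d01] at h1
    omega

end pg

/-! ### The dense matroids `B_m` -/

section bn

/-- The field with four elements. -/
abbrev K4 : Type := GaloisField 2 2

lemma card_K4 : Nat.card K4 = 4 := by
  rw [GaloisField.card 2 2 (by norm_num)]; norm_num

/-- The vector configuration of `B_m`: all vectors of `K4 × K4^m` whose last `m` coordinates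
lie in the prime field. -/
noncomputable def bvec (m : ℕ) : K4 × (Fin m → ZMod 2) → K4 × (Fin m → K4) :=
  fun x => (x.1, fun i => algebraMap (ZMod 2) K4 (x.2 i))

/-- The matroid `B_m`, of rank `m + 1`. -/
noncomputable def Bmat (m : ℕ) : Matroid (K4 × (Fin m → ZMod 2)) := linMat K4 (bvec m)

lemma Bmat_inU (m : ℕ) : InU 4 (Bmat m) :=
  (isRep_linMat _).inU (linMat_finite _) (by rw [card_K4])

lemma Bmat_d (m : ℕ) (S : Set (K4 × (Fin m → ZMod 2))) (hS : LinearIndepOn (ZMod 2) (bvec m) S) :
    S.ncard ≤ m + 2 := by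
  classical
  let φ : (K4 × (Fin m → ZMod 2)) →ₗ[ZMod 2] (K4 × (Fin m → K4)) :=
    { toFun := bvec m
      map_add' := by
        intro x y
        simp only [bvec]
        ext <;> simp
      map_smul' := by
        intro c x
        simp only [bvec]
        ext i
        · simp
        · simp [Algebra.smul_def] }
  have h1 : LinearIndepOn (ZMod 2) (id : K4 × (Fin m → ZMod 2) → _) S :=
    LinearIndepOn.of_comp φ hS
  let _ : Fintype S := Fintype.ofFinite _
  have h2 := LinearIndependent.fintype_card_le_finrank h1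
  rw [← Nat.card_eq_fintype_card] at h2
  have h3 : Module.finrank (ZMod 2) (K4 × (Fin m → ZMod 2)) = m + 2 := by
    rw [Module.finrank_prod, GaloisField.finrank 2 (by norm_num)]
    simp [add_comm]
  rw [h3] at h2
  exact h2

lemma Bmat_rank (m : ℕ) : (Bmat m).eRank = (m + 1 : ℕ) := by
  classical
  obtain ⟨B, hB⟩ := (Bmat m).exists_isBase
  have hBi : LinearIndepOn K4 (bvec m) B := hB.indep
  have h1 : B.ncard ≤ m + 1 := by
    let _ : Fintype B := Fintype.ofFinite _
    have h2 := LinearIndependent.fintype_card_le_finrank hBi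
    rw [← Nat.card_eq_fintype_card] at h2
    have h3 : Module.finrank K4 (K4 × (Fin m → K4)) = m + 1 := by
      rw [Module.finrank_prod]
      simp [add_comm]
    rw [h3] at h2
    exact h2
  -- lower bound
  let f : Option (Fin m) → K4 × (Fin m → ZMod 2) := fun o => o.elim (1, 0) (fun i => (0, Pi.single i 1))
  have hf : LinearIndependent K4 (bvec m ∘ f) := by
    rw [Fintype.linearIndependent_iff]
    intro g hg
    rw [Fintype.sum_option] at hg
    have e1 := congrArg Prod.fst hg
    have e2 := fun i => congrFun (congrArg Prod.snd hg) i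
    simp [f, bvec, Prod.fst_sum] at e1
    intro o
    rcases o with _ | i
    · exact e1
    · have := e2 i
      simp [f, bvec, Prod.snd_sum, Finset.sum_apply, Pi.single_apply, apply_ite] at this
      exact this
  have hinj : Function.Injective f := by
    intro a b hab
    by_contra hne
    exact hne (hf.injective (by simp [hab]))
  have hf' : LinearIndepOn K4 (bvec m) (range f) := by
    rw [linearIndepOn_range_iff hinj]
    exact hf
  have h4 : (Bmat m).Indep (range f) := hf'
  have h5 := h4.encard_le_eRank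
  rw [← hB.encard_eq_eRank] at h5 ⊢
  have h6 : (range f).ncard = m + 1 := by
    rw [← Set.image_univ, Set.ncard_image_of_injective _ hinj, Set.ncard_univ]
    simp
  rw [← Set.Finite.cast_ncard_eq (Set.toFinite B)] at h5 ⊢
  rw [← Set.Finite.cast_ncard_eq (Set.toFinite (range f)), h6] at h5
  have h7 : m + 1 ≤ B.ncard := by exact_mod_cast h5
  exact_mod_cast le_antisymm h1 h7

lemma Bmat_pair (m : ℕ) (x y : K4 × (Fin m → ZMod 2)) (hx : x.2 ≠ 0) (hy : y.2 ≠ 0) (hxy : x ≠ y) :
    LinearIndepOn K4 (bvec m) {x, y} := by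
  rw [LinearIndepOn.pair_iff _ hxy]
  intro c d hcd
  have e1 := congrArg Prod.fst hcd
  have e2 := fun i => congrFun (congrArg Prod.snd hcd) i
  simp only [bvec, Prod.fst_add, Prod.smul_fst, smul_eq_mul, Prod.fst_zero] at e1
  simp only [bvec, Prod.snd_add, Prod.smul_snd, Pi.add_apply, Pi.smul_apply, smul_eq_mul,
    Prod.snd_zero, Pi.zero_apply] at e2
  have h01 : ∀ a : ZMod 2, a = 0 ∨ a = 1 := by decide
  obtain ⟨i, hi⟩ := Function.ne_iff.1 hx
  obtain ⟨j, hj⟩ := Function.ne_iff.1 hy
  have hi1 : x.2 i = 1 := (h01 _).resolve_left hi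
  have hj1 : y.2 j = 1 := (h01 _).resolve_left hj
  have ei := e2 i
  have ej := e2 j
  rw [hi1] at ei
  rw [hj1] at ej
  simp only [map_one, mul_one] at ei ej
  by_cases hc : c = 0
  · subst hc
    simp at ej
    exact ⟨rfl, ej⟩
  by_cases hd : d = 0
  · subst hd
    simp at ei
    exact ⟨ei, rfl⟩
  exfalso
  apply hxy
  have h2 : x.2 = y.2 := by
    ext l
    have el := e2 l
    rcases h01 (x.2 l) with h | h <;> rcases h01 (y.2 l) with h' | h'
    · rw [h, h']
    · rw [h, h'] at el
      simp [hd] at el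
    · rw [h, h'] at el
      simp [hc] at el
    · rw [h, h']
  rw [← h2, hi1, map_one, mul_one] at ei
  have h3 : x.1 = y.1 := by
    have h4 : c * (x.1 - y.1) = 0 := by
      linear_combination e1 - y.1 * ei
    exact sub_eq_zero.1 ((mul_eq_zero.1 h4).resolve_left hc)
  exact Prod.ext h3 h2

/-- `B_m` has at least `4 (2^m - 1)` points. -/
lemma Bmat_points (m : ℕ) : 4 * 2 ^ m ≤ points (Bmat m) + 4 := by
  classical
  set Y : Set (K4 × (Fin m → ZMod 2)) := {x | x.2 ≠ 0} with hY
  have h1 : Y.ncard ≤ points (Bmat m) := by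
    refine Set.ncard_le_ncard_of_injOn (fun x => (Bmat m).closure {x}) ?_ ?_ (Set.toFinite _)
    · intro x hx
      refine ⟨(Bmat m).isFlat_closure _, ?_⟩
      rw [Matroid.eRk_closure_eq]
      have h2 : (Bmat m).Indep {x} := by
        refine LinearIndepOn.singleton (v := bvec m) ?_
        intro h0
        apply hx
        ext i
        have h3 := congrFun (congrArg Prod.snd h0) i
        simpa [bvec] using h3
      rw [h2.eRk_eq_encard, Set.encard_singleton]
    · intro x hx y hy hxy
      by_contra hne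
      have h2 : (Bmat m).Indep {x, y} := Bmat_pair m x y hx hy hne
      have h3 : y ∈ (Bmat m).closure {x} := by
        have : y ∈ (Bmat m).closure {y} := Matroid.mem_closure_of_mem' _ rfl (Set.mem_univ _)
        simp only at hxy
        rw [hxy]
        exact this
      have h4 := h2.notMem_closure_sdiff_of_mem (e := y) (by simp)
      apply h4
      have h5 : ({x, y} : Set (K4 × (Fin m → ZMod 2))) \ {y} = {x} := by
        ext z
        simp only [mem_sdiff, mem_insert_iff, mem_singleton_iff]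
        constructor
        · rintro ⟨rfl | rfl, h⟩
          · rfl
          · exact absurd rfl h
        · rintro rfl
          exact ⟨Or.inl rfl, hne⟩
      rw [h5]
      exact h3
  have h2 : Yᶜ.ncard ≤ 4 := by
    have h3 : Yᶜ ⊆ (fun a : K4 => (a, (0 : Fin m → ZMod 2))) '' univ := by
      rintro ⟨a, y⟩ h
      simp only [hY, mem_compl_iff, mem_ofPred_eq, not_not] at h
      exact ⟨a, Set.mem_univ _, by rw [h]⟩
    refine (Set.ncard_le_ncard h3 (Set.toFinite _)).trans ?_
    refine (Set.ncard_image_le (Set.toFinite _)).trans ?_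
    rw [Set.ncard_univ, card_K4]
  have h3 := Set.ncard_add_ncard_compl Y
  have h4 : Nat.card (K4 × (Fin m → ZMod 2)) = 4 * 2 ^ m := by
    rw [Nat.card_prod, card_K4, Nat.card_fun]
    simp
  omega

/-- A minor of `B_m` isomorphic to `PG(3, F)` forces `PG(3,F)` to have at most `31` points. -/
lemma Bmat_minor (m : ℕ) (F : Type) [Field F] [Finite F] (h : HasMinorIso (Bmat m) (PG3 F)) :
    1 + Nat.card F + Nat.card F ^ 2 + Nat.card F ^ 3 + 1 ≤ 32 := by
  classical
  obtain ⟨N, ⟨C, D, rfl⟩, f, hf, hind⟩ := h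
  obtain ⟨J, hJ⟩ := (Bmat m).exists_isBasis' C
  set X := (((Bmat m).contract C).delete D).E with hX
  have hrep : IsRep K4 ((span K4 (bvec m '' J)).mkQ ∘ bvec m) (((Bmat m).contract C).delete D) :=
    (isRep_linMat (bvec m)).minor hJ
  have hpair : ∀ x ∈ X, ∀ y ∈ X, x ≠ y →
      LinearIndepOn K4 ((span K4 (bvec m '' J)).mkQ ∘ bvec m) {x, y} := by
    intro x hx y hy hxy
    have hs : ({x, y} : Set _) ⊆ X := by rintro z (rfl | rfl) <;> assumption
    rw [← hrep _ hs, hind _ hs, Set.image_pair]
    refine PG3_pair F _ _ ?_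
    intro he
    exact hxy (hf.injOn hx hy he)
  have hsing : ∀ x ∈ X, LinearIndepOn K4 ((span K4 (bvec m '' J)).mkQ ∘ bvec m) {x} := by
    intro x hx
    have hs : ({x} : Set _) ⊆ X := by rintro z rfl; assumption
    rw [← hrep _ hs, hind _ hs, Set.image_singleton]
    exact PG3_single F _
  have hrk : ∀ I, (((Bmat m).contract C).delete D).Indep I → I.ncard ≤ 4 := by
    intro I hI
    have hIX : I ⊆ X := hI.subset_ground
    have h1 := (hind I hIX).1 hI
    have h2 := PG3_rank F _ h1
    rwa [(hf.injOn.mono hIX).ncard_image] at h2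
  have hcount := card_bound (k := ZMod 2) (v := (span K4 (bvec m '' J)).mkQ ∘ bvec m) (X := X)
    (t := 5) ?_ ?_ ?_
  · have hc : X.ncard = 1 + Nat.card F + Nat.card F ^ 2 + Nat.card F ^ 3 := by
      rw [← PG3_card, ← hf.injOn.ncard_image, hf.image_eq]
      rfl
    rw [hc] at hcount
    simpa using hcount
  · intro x hx y hy hxy
    by_contra hne
    have h1 := hpair x hx y hy hne
    rw [LinearIndepOn.pair_iff _ hne] at h1
    have := h1 1 (-1) (by rw [hxy]; simp)
    exact one_ne_zero this.1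
  · intro x hx
    exact (hsing x hx).ne_zero rfl
  · intro T hTX hT
    have := density (k := ZMod 2) (F := K4) (v := bvec m) (d := m + 2) (n := m + 1) (r := 4)
      (Bmat_d m) (Bmat_rank m) hJ hrk hTX hT
    omega

end bn

/-! ### The counterexample -/

section final

open scoped LinearAlgebra.Projectivization

/-- Ground types of the two excluded matroids. -/
def exT : Bool → Type
  | true => ℙ (ZMod 3) (Fin 4 → ZMod 3)
  | false => ℙ K4 (Fin 4 → K4)

/-- The two excluded matroids `PG(3,3)` and `PG(3,4)`. -/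
noncomputable def exM : ∀ i : Bool, Matroid (exT i)
  | true => PG3 (ZMod 3)
  | false => PG3 K4

lemma card_Z3 : Nat.card (ZMod 3) = 3 := by simp

lemma exM_inU : ∀ i, InU 4 (exM i)
  | true => PG3_inU (ZMod 3) (by rw [card_Z3]; norm_num)
  | false => PG3_inU K4 (by rw [card_K4])

lemma exM_not2 : ∀ i, ¬ InL 2 (exM i)
  | true => PG3_not_binary (ZMod 3) (by rw [card_Z3])
  | false => PG3_not_binary K4 (by rw [card_K4]; norm_num)

lemma exM_3 : InL 3 (exM true) := by
  have := PG3_inL (ZMod 3)
  rwa [card_Z3] at this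

lemma exM_4 : InL 4 (exM false) := by
  have := PG3_inL K4
  rwa [card_K4] at this

lemma Bmat_inClass (m : ℕ) : InClass exM 4 (Bmat m) := by
  refine ⟨Bmat_inU m, ?_⟩
  rintro (_ | _) h
  · have := Bmat_minor m K4 h
    rw [card_K4] at this
    norm_num at this
  · have := Bmat_minor m (ZMod 3) h
    rw [card_Z3] at this
    norm_num at this

lemma dense (n : ℕ) (hn : 2 ≤ n) : ∃ (β : Type) (G : Matroid β),
    InClass exM 4 G ∧ G.eRank = n ∧ 2 ^ (n + 1) ≤ points G + 4 := by
  obtain ⟨m, rfl⟩ : ∃ m, n = m + 1 := ⟨n - 1, by omega⟩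
  refine ⟨_, Bmat m, Bmat_inClass m, Bmat_rank m, ?_⟩
  have := Bmat_points m
  have h2 : 2 ^ (m + 1 + 1) = 4 * 2 ^ m := by ring
  omega

/-- **Q1 is false.**  Moreover, for `q = 4` there is a collection of two matroids in `𝓤(4)`,
neither of them binary, one ternary and one quaternary (so `r̂ = 2`), such that for every `n ≥ 2`
the class `𝓔𝓧(M_α) ∩ 𝓤(4)` contains a rank-`n` matroid with at least `2 ^ (n+1) - 4` points,
which is more than `2 ^ n - 1`. -/
theorem result : ¬ Q1 ∧
    ∃ (ι : Type) (A : ι → Type) (𝓜 : ∀ i, Matroid (A i)),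
      Nat.card ι = 2 ∧ (∀ i, InU 4 (𝓜 i)) ∧ (∀ i, ¬ InL 2 (𝓜 i)) ∧
      (∃ i, InL 3 (𝓜 i)) ∧ (∃ i, InL 4 (𝓜 i)) ∧
      ∀ n : ℕ, 2 ≤ n → ∃ (β : Type) (G : Matroid β),
        InClass 𝓜 4 G ∧ G.eRank = n ∧ 2 ^ n - 1 < points G ∧ 2 ^ (n + 1) - 4 ≤ points G := by
  have hlt : ∀ n p : ℕ, 2 ≤ n → 2 ^ (n + 1) ≤ p + 4 → 2 ^ n - 1 < p := by
    intro n p hn hp
    have h1 : 2 ^ 2 ≤ 2 ^ n := Nat.pow_le_pow_right (by norm_num) hn
    have h2 : 2 ^ (n + 1) = 2 * 2 ^ n := by ring
    omega
  constructor
  · intro hQ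
    obtain ⟨N, hN⟩ := hQ 4 (by norm_num) Bool exT exM exM_inU 2
      ⟨Nat.prime_two.isPrimePow, by norm_num, exM_not2⟩ (by
        rintro r ⟨-, hr4, hr⟩
        by_contra hcon
        have : r = 3 ∨ r = 4 := by omega
        rcases this with rfl | rfl
        · exact hr true exM_3
        · exact hr false exM_4)
    have h1 := hN (max N 2) (le_max_left _ _)
    obtain ⟨β, G, hG, hGr, hGp⟩ := dense (max N 2) (le_max_right _ _)
    have h2 := h1.2 ⟨β, G, hG, hGr, rfl⟩
    have h3 := hlt _ _ (le_max_right N 2) hGp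
    norm_num at h2
    omega
  · refine ⟨Bool, exT, exM, by simp, exM_inU, exM_not2, ⟨true, exM_3⟩, ⟨false, exM_4⟩, ?_⟩
    intro n hn
    obtain ⟨β, G, hG, hGr, hGp⟩ := dense n hn
    exact ⟨β, G, hG, hGr, hlt _ _ hn hGp, by omega⟩

end final

end Pool.Agent.Results.MP_f02e69_co.SizeFunctionFalse
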